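import Pool.Agent.W223.CV.Stms
import Pool.Agent.W70.LD.Mahler

set_option autoImplicit false

namespace Pool.Agent.W469.CV.MH

open NumberField Height Module Polynomial
open Pool.Agent.Helper259.AbsHt
open Pool.Agent.H58P (Qb ht qb_isIntegral)
open Pool.Agent.H58W (hM dens isInt)
open Pool.Agent.W223.CV
open Pool.Agent.H813R3.Voj (mahler)

theorem ht_emb (L : Type) [Field L] [NumberField L] (φ : L →+* Qb) (x : L) :
    ht (φ x) = Real.log (mulHeight₁ x) / finrank ℚ L := by
  have h1 := absLogHeight_eq L φ ![1, x]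
  have e : (fun i => φ ((![1, x] : Fin 2 → L) i)) = ![1, φ x] := by
    funext i
    fin_cases i
    · simp
    · simp
  rw [e, logHeight_swap, ← logHeight₁_eq_logHeight,
    logHeight₁_eq_log_mulHeight₁] at h1
  exact h1

theorem hM_le (γ : Qb) (f : ℤ[X]) (hf : Irreducible f) (hd : 0 < f.natDegree)
    (h0 : aeval γ f = 0) : hM γ ≤ Real.log (mahler f) / f.natDegree := by
  have hprim : f.IsPrimitive := hf.isPrimitive hd.ne'
  have hirr : Irreducible (f.map (Int.castRingHom ℚ)) :=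
    (IsPrimitive.Int.irreducible_iff_irreducible_map_cast hprim).1 hf
  have hroot : aeval γ (f.map (Int.castRingHom ℚ)) = 0 := by
    have : aeval γ (f.map (algebraMap ℤ ℚ)) = 0 := by rw [aeval_map_algebraMap, h0]
    exact this
  have hmin := minpoly.eq_of_irreducible hirr hroot
  have hinj : Function.Injective (Int.castRingHom ℚ) := Int.cast_injective
  have hlc : (f.map (Int.castRingHom ℚ)).leadingCoeff = (f.leadingCoeff : ℚ) := by
    rw [leadingCoeff_map_of_injective hinj]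
    rfl
  rw [hlc] at hmin
  have ha : f.leadingCoeff ≠ 0 := leadingCoeff_ne_zero.2 hf.ne_zero
  have haQ : (f.leadingCoeff : ℚ) ≠ 0 := by exact_mod_cast ha
  have hdeg : (minpoly ℚ γ).natDegree = f.natDegree := by
    rw [← hmin, natDegree_mul_C (inv_ne_zero haQ), natDegree_map_eq_of_injective hinj]
  have hmem : f.leadingCoeff.natAbs ∈ dens γ := by
    refine ⟨Int.natAbs_pos.2 ha, fun i => ?_⟩
    rw [← hmin, coeff_mul_C, coeff_map]
    have h1 : (Int.castRingHom ℚ) (f.coeff i) = (f.coeff i : ℚ) := rfl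
    rw [h1]
    rcases Int.natAbs_eq f.leadingCoeff with h | h
    · have h2 : ((f.leadingCoeff.natAbs : ℕ) : ℚ) = (f.leadingCoeff : ℚ) := by
        rw [← Int.cast_natCast, ← h]
      rw [h2, show (f.leadingCoeff : ℚ) * ((f.coeff i : ℚ) * (f.leadingCoeff : ℚ)⁻¹) =
        (f.coeff i : ℚ) by field_simp]
      exact Rat.den_intCast _
    · have h2 : ((f.leadingCoeff.natAbs : ℕ) : ℚ) = -(f.leadingCoeff : ℚ) := by
        have : (f.leadingCoeff.natAbs : ℤ) = -f.leadingCoeff := by omega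
        rw [← Int.cast_natCast, this, Int.cast_neg]
      rw [h2, show -(f.leadingCoeff : ℚ) * ((f.coeff i : ℚ) * (f.leadingCoeff : ℚ)⁻¹) =
        ((-f.coeff i : ℤ) : ℚ) by push_cast; field_simp]
      exact Rat.den_intCast _
  have hc : sInf (dens γ) ≤ f.leadingCoeff.natAbs := Nat.sInf_le hmem
  have hc1 : 0 < sInf (dens γ) := (Pool.Agent.H58W.sInf_mem γ).1
  have hM1 := Pool.Agent.H58W.one_le_mm γ
  have hmah : ((f.leadingCoeff.natAbs : ℕ) : ℝ) *
      (Polynomial.map (algebraMap ℚ ℂ) (minpoly ℚ γ)).mahlerMeasure = mahler f := by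
    have h1 : Polynomial.map (algebraMap ℚ ℂ) (minpoly ℚ γ) =
        f.map (Int.castRingHom ℂ) * C ((f.leadingCoeff : ℂ)⁻¹) := by
      rw [← hmin, Polynomial.map_mul, Polynomial.map_map, map_C]
      congr 2
      simp
    rw [h1, mahlerMeasure_mul, mahlerMeasure_const, norm_inv]
    unfold Pool.Agent.H813R3.Voj.mahler
    have h2 : ‖(f.leadingCoeff : ℂ)‖ = ((f.leadingCoeff.natAbs : ℕ) : ℝ) := by
      rw [Complex.norm_intCast, Nat.cast_natAbs]
      push_cast
      rfl
    rw [h2]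
    have h3 : ((f.leadingCoeff.natAbs : ℕ) : ℝ) ≠ 0 := by
      exact_mod_cast (Int.natAbs_pos.2 ha).ne'
    field_simp
  unfold Pool.Agent.H58W.hM
  rw [hdeg, ← hmah]
  have hd' : (0 : ℝ) < f.natDegree := by exact_mod_cast hd
  have hcR : ((sInf (dens γ) : ℕ) : ℝ) ≤ ((f.leadingCoeff.natAbs : ℕ) : ℝ) := by
    exact_mod_cast hc
  have hc1R : (0 : ℝ) < ((sInf (dens γ) : ℕ) : ℝ) := by exact_mod_cast hc1
  gcongr

theorem t : StmtMH := by
  intro L _ _ x f hf hd hx
  let φ : L →+* Qb := ((IsAlgClosed.lift : L →ₐ[ℚ] Qb) : L →+* Qb)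
  have h1 : aeval (φ x) f = 0 := by
    rw [aeval_def, ← RingHom.map_zero φ, ← hx, aeval_def, hom_eval₂]
    congr 1
    exact RingHom.ext_int _ _
  have h2 := (Pool.Agent.W70.LD.ht_le_hM (φ x)).trans (hM_le (φ x) f hf hd h1)
  rw [ht_emb] at h2
  have h3 : (0 : ℝ) < finrank ℚ L := by
    exact_mod_cast Module.finrank_pos (R := ℚ) (M := L)
  rw [div_le_iff₀ h3] at h2
  linarith

end Pool.Agent.W469.CV.MH
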