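import Pool.Agent.W223.CV.Stms

set_option autoImplicit false

namespace Pool.Agent.W469.CV.REL

open IsDedekindDomain NumberField
open Pool.Agent.W223.VD (cnt)
open Pool.Agent.W223.CV

attribute [local instance] FractionRing.liftAlgebra FractionRing.isScalarTower_liftAlgebra

/-- The primes counted in `cnt`. -/
def Cnd {K : Type} [Field K] [NumberField K] {q : ℕ} (S : Finset ℕ)
    (P : Fin q → ℤ × ℤ) (x : K) (v : HeightOneSpectrum (𝓞 K)) : Prop :=
  (∀ p ∈ S, (p : 𝓞 K) ∉ v.asIdeal) ∧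
      ∃ j, v.valuation K (lin (P j) x) < max (v.valuation K x) 1

section fin

variable {K : Type} [Field K] [NumberField K]

theorem fin_near {y x : K} (hy : y ≠ 0) :
    {v : HeightOneSpectrum (𝓞 K) | v.valuation K y < max (v.valuation K x) 1}.Finite := by
  refine ((HeightOneSpectrum.Support.finite (𝓞 K) x).union
    (HeightOneSpectrum.Support.finite (𝓞 K) y⁻¹)).subset ?_
  intro v hv
  have hv' : v.valuation K y < max (v.valuation K x) 1 := hv
  rcases lt_or_ge 1 (v.valuation K x) with h | h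
  · exact Or.inl h
  · right
    rw [max_eq_right h] at hv'
    show 1 < v.valuation K y⁻¹
    rw [map_inv₀]
    have h0 : 0 < v.valuation K y := by
      rw [zero_lt_iff]
      exact (Valuation.ne_zero_iff _).2 hy
    exact (one_lt_inv₀ h0).2 hv'

theorem fin_cnd {q : ℕ} (S : Finset ℕ) (P : Fin q → ℤ × ℤ) (x : K) (h : ∀ j, lin (P j) x ≠ 0) :
    {v : HeightOneSpectrum (𝓞 K) | Cnd S P x v}.Finite := by
  refine (Set.finite_iUnion fun j => fin_near (x := x) (h j)).subset ?_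
  rintro v ⟨-, j, hj⟩
  exact Set.mem_iUnion.2 ⟨j, hj⟩

theorem cnt_eq {q : ℕ} (S : Finset ℕ) (P : Fin q → ℤ × ℤ) (x : K) (h : ∀ j, lin (P j) x ≠ 0) :
    cnt S P x = ∑ v ∈ (fin_cnd S P x h).toFinset, Real.log (Ideal.absNorm v.asIdeal) := by
  classical
  unfold cnt
  rw [finsum_eq_sum_of_support_subset (s := (fin_cnd S P x h).toFinset)]
  · refine Finset.sum_congr rfl fun v hv => ?_
    have hv' : Cnd S P x v := (fin_cnd S P x h).mem_toFinset.1 hv
    exact if_pos hv'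
  · intro v hv
    rw [Function.mem_support] at hv
    rw [Set.Finite.coe_toFinset]
    by_contra hcon
    have hv' : ¬ Cnd S P x v := hcon
    exact hv (if_neg hv')

end fin

variable {k L : Type} [Field k] [NumberField k] [Field L] [NumberField L] [Algebra k L]

theorem cnd_iff {q : ℕ} (S : Finset ℕ) (P : Fin q → ℤ × ℤ) (x : k)
    (v : HeightOneSpectrum (𝓞 k)) (w : HeightOneSpectrum (𝓞 L)) [w.asIdeal.LiesOver v.asIdeal] :
    Cnd S P (algebraMap k L x) w ↔ Cnd S P x v := by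
  have he : v.asIdeal.ramificationIdx' w.asIdeal ≠ 0 :=
    Ideal.IsDedekindDomain.ramificationIdx'_ne_zero_of_liesOver w.asIdeal v.ne_bot
  have h1 : ∀ p : ℕ, (p : 𝓞 L) ∈ w.asIdeal ↔ (p : 𝓞 k) ∈ v.asIdeal := by
    intro p
    rw [Ideal.mem_of_liesOver w.asIdeal v.asIdeal, map_natCast]
  have h2 : ∀ j, lin (P j) (algebraMap k L x) = algebraMap k L (lin (P j) x) := by
    intro j
    simp [lin]
  have h3 : ∀ j, w.valuation L (lin (P j) (algebraMap k L x)) <
      max (w.valuation L (algebraMap k L x)) 1 ↔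
      v.valuation k (lin (P j) x) < max (v.valuation k x) 1 := by
    intro j
    rw [h2, ← HeightOneSpectrum.valuation_liesOver L v w, ← HeightOneSpectrum.valuation_liesOver L v w]
    have h4 : max (v.valuation k x ^ v.asIdeal.ramificationIdx' w.asIdeal) 1 =
        max (v.valuation k x) 1 ^ v.asIdeal.ramificationIdx' w.asIdeal := by
      rcases le_total (v.valuation k x) 1 with h | h
      · rw [max_eq_right h, one_pow, max_eq_right (pow_le_one' h _)]
      · rw [max_eq_left h, max_eq_left (one_le_pow₀ h)]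
    rw [h4]
    exact pow_lt_pow_iff_left₀ zero_le zero_le he
  unfold Cnd
  simp only [h1, h3]

theorem t : StmtREL := by
  classical
  intro k L _ _ _ _ _ q S P x hx
  have hxL : ∀ j, lin (P j) (algebraMap k L x) ≠ 0 := by
    intro j
    have h2 : lin (P j) (algebraMap k L x) = algebraMap k L (lin (P j) x) := by
      simp [lin]
    rw [h2]
    exact (map_ne_zero _).2 (hx j)
  set V := (fin_cnd S P x hx).toFinset with hV
  set W := (fin_cnd S P (algebraMap k L x) hxL).toFinset with hW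
  have hmax : ∀ v : HeightOneSpectrum (𝓞 k), v.asIdeal.IsMaximal := fun v => v.isMaximal
  -- the primes above `v`
  let I : HeightOneSpectrum (𝓞 k) → Finset (Ideal (𝓞 L)) := fun v =>
    (v.asIdeal.primesOver (𝓞 L)).toFinset
  have hI : ∀ v Q, Q ∈ I v ↔ Q.IsPrime ∧ Q.LiesOver v.asIdeal := by
    intro v Q
    show Q ∈ (v.asIdeal.primesOver (𝓞 L)).toFinset ↔ _
    rw [Set.mem_toFinset]
    rfl
  have hbot : ∀ v Q, Q ∈ I v → Q ≠ ⊥ := by
    intro v Q hQ
    obtain ⟨h1, h2⟩ := (hI v Q).1 hQ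
    exact Ideal.ne_bot_of_liesOver_of_ne_bot v.ne_bot Q
  have hdisj : ∀ v ∈ V, ∀ v' ∈ V, v ≠ v' → Disjoint (I v) (I v') := by
    intro v _ v' _ hvv
    rw [Finset.disjoint_left]
    intro Q hQ hQ'
    have h1 := ((hI v Q).1 hQ).2.over
    have h2 := ((hI v' Q).1 hQ').2.over
    exact hvv (HeightOneSpectrum.ext (h1.trans h2.symm))
  set Z := V.biUnion I with hZ
  have hlog0 : ∀ Q : Ideal (𝓞 L), 0 ≤ Real.log (Ideal.absNorm Q) := fun Q =>
    Real.log_natCast_nonneg _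
  -- the sum for `L`
  have s1 : ∑ Q ∈ Z, Real.log (Ideal.absNorm Q) ≤ cnt S P (algebraMap k L x) := by
    rw [cnt_eq S P _ hxL, ← hW]
    have hinj : Set.InjOn (fun w : HeightOneSpectrum (𝓞 L) => w.asIdeal) ↑W :=
      fun w _ w' _ h => HeightOneSpectrum.ext h
    rw [← Finset.sum_image (f := fun Q : Ideal (𝓞 L) => Real.log (Ideal.absNorm Q)) hinj]
    refine Finset.sum_le_sum_of_subset_of_nonneg ?_ fun Q _ _ => hlog0 Q
    intro Q hQ
    rw [hZ, Finset.mem_biUnion] at hQ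
    obtain ⟨v, hv, hQ⟩ := hQ
    obtain ⟨h1, h2⟩ := (hI v Q).1 hQ
    rw [Finset.mem_image]
    let w : HeightOneSpectrum (𝓞 L) := ⟨Q, h1, hbot v Q hQ⟩
    refine ⟨w, ?_, rfl⟩
    rw [hW, Set.Finite.mem_toFinset]
    have : w.asIdeal.LiesOver v.asIdeal := h2
    show Cnd S P (algebraMap k L x) w
    rw [cnd_iff S P x v w]
    rw [hV, Set.Finite.mem_toFinset] at hv
    exact hv
  -- factorisation
  have hmap : ∀ v : HeightOneSpectrum (𝓞 k), Ideal.map (algebraMap (𝓞 k) (𝓞 L)) v.asIdeal =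
      ∏ Q ∈ I v, Q ^ Q.ramificationIdx (𝓞 k) := by
    intro v
    have := hmax v
    exact Ideal.map_algebraMap_eq_finsetProd_pow v.ne_bot
  have hfr : Module.finrank (𝓞 k) (𝓞 L) = Module.finrank k L :=
    (IsFractionRing.finrank_eq (𝓞 k) k (𝓞 L) L).symm
  have s2 : ∀ v : HeightOneSpectrum (𝓞 k),
      (Module.finrank k L : ℝ) * Real.log (Ideal.absNorm v.asIdeal) =
      ∑ Q ∈ I v, (Q.ramificationIdx (𝓞 k) : ℝ) * Real.log (Ideal.absNorm Q) := by
    intro v
    have h1 := Ideal.absNorm_algebraMap (𝓞 k) (𝓞 L) v.asIdeal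
    rw [hmap v, map_prod, hfr] at h1
    have h2 : (∏ Q ∈ I v, ((Ideal.absNorm Q : ℝ)) ^ Q.ramificationIdx (𝓞 k)) =
        (Ideal.absNorm v.asIdeal : ℝ) ^ Module.finrank k L := by
      have h3 := congrArg (fun n : ℕ => (n : ℝ)) h1
      simp only [Nat.cast_prod, Nat.cast_pow, map_pow] at h3
      exact h3
    rw [← Real.log_pow, ← h2, Real.log_prod]
    · refine Finset.sum_congr rfl fun Q _ => ?_
      rw [Real.log_pow]
    · intro Q hQ
      refine pow_ne_zero _ ?_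
      rw [Nat.cast_ne_zero]
      exact Ideal.absNorm_eq_zero_iff.not.2 (hbot v Q hQ)
  have s3 : (Module.finrank k L : ℝ) * cnt S P x =
      ∑ Q ∈ Z, (Q.ramificationIdx (𝓞 k) : ℝ) * Real.log (Ideal.absNorm Q) := by
    rw [cnt_eq S P _ hx, ← hV, Finset.mul_sum, hZ, Finset.sum_biUnion hdisj]
    exact Finset.sum_congr rfl fun v _ => s2 v
  -- the different
  have hdvd : (∏ Q ∈ Z, Q ^ (Q.ramificationIdx (𝓞 k) - 1)) ∣ differentIdeal (𝓞 k) (𝓞 L) := by
    refine Finset.prod_dvd_of_coprime ?_ ?_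
    · intro Q hQ Q' hQ' hne
      rw [Finset.mem_coe, hZ, Finset.mem_biUnion] at hQ hQ'
      obtain ⟨v, -, hQ⟩ := hQ
      obtain ⟨v', -, hQ'⟩ := hQ'
      have m1 : Q.IsMaximal := ((hI v Q).1 hQ).1.isMaximal (hbot v Q hQ)
      have m2 : Q'.IsMaximal := ((hI v' Q').1 hQ').1.isMaximal (hbot v' Q' hQ')
      exact (Ideal.isCoprime_of_isMaximal hne).pow
    · intro Q hQ
      rw [hZ, Finset.mem_biUnion] at hQ
      obtain ⟨v, -, hQ⟩ := hQ
      have := hmax v
      refine pow_sub_one_dvd_differentIdeal (𝓞 k) (p := v.asIdeal) Q _ v.ne_bot ?_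
      rw [hmap v]
      exact Finset.dvd_prod_of_mem _ hQ
  have hdiff0 : Ideal.absNorm (differentIdeal (𝓞 k) (𝓞 L)) ≠ 0 := by
    intro h
    have h1 := NumberField.natAbs_discr_eq_absNorm_differentIdeal_mul_natAbs_discr_pow k (𝓞 k) L (𝓞 L)
    rw [h, zero_mul] at h1
    exact NumberField.discr_ne_zero L (Int.natAbs_eq_zero.1 h1)
  have s4 : ∑ Q ∈ Z, ((Q.ramificationIdx (𝓞 k) - 1 : ℕ) : ℝ) * Real.log (Ideal.absNorm Q) ≤
      Real.log (Ideal.absNorm (differentIdeal (𝓞 k) (𝓞 L))) := by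
    have h1 := Ideal.absNorm_dvd_absNorm_of_le (Ideal.dvd_iff_le.1 hdvd)
    have h2 := Nat.le_of_dvd (Nat.pos_of_ne_zero hdiff0) h1
    have h3 : ((Ideal.absNorm (∏ Q ∈ Z, Q ^ (Q.ramificationIdx (𝓞 k) - 1)) : ℕ) : ℝ) ≤
        (Ideal.absNorm (differentIdeal (𝓞 k) (𝓞 L)) : ℝ) := by exact_mod_cast h2
    rw [map_prod] at h3
    simp only [Nat.cast_prod, Nat.cast_pow, map_pow] at h3
    have hne : ∀ Q ∈ Z, (Ideal.absNorm Q : ℝ) ≠ 0 := by
      intro Q hQ
      rw [hZ, Finset.mem_biUnion] at hQ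
      obtain ⟨v, -, hQ⟩ := hQ
      rw [Nat.cast_ne_zero]
      exact Ideal.absNorm_eq_zero_iff.not.2 (hbot v Q hQ)
    have h4 : 0 < ∏ Q ∈ Z, (Ideal.absNorm Q : ℝ) ^ (Q.ramificationIdx (𝓞 k) - 1) :=
      Finset.prod_pos fun Q hQ => pow_pos (lt_of_le_of_ne (Nat.cast_nonneg _) (hne Q hQ).symm) _
    have h5 := Real.log_le_log h4 h3
    rw [Real.log_prod (fun Q hQ => pow_ne_zero _ (hne Q hQ))] at h5
    simp only [Real.log_pow] at h5
    exact h5
  have s5 : Real.log |(discr L : ℝ)| = Real.log (Ideal.absNorm (differentIdeal (𝓞 k) (𝓞 L))) +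
      (Module.finrank k L : ℝ) * Real.log |(discr k : ℝ)| := by
    have h1 := NumberField.natAbs_discr_eq_absNorm_differentIdeal_mul_natAbs_discr_pow k (𝓞 k) L (𝓞 L)
    have h2 : |(discr L : ℝ)| = (Ideal.absNorm (differentIdeal (𝓞 k) (𝓞 L)) : ℝ) *
        |(discr k : ℝ)| ^ Module.finrank k L := by
      have h3 := congrArg (fun n : ℕ => (n : ℝ)) h1
      simp only [Nat.cast_mul, Nat.cast_pow, Nat.cast_natAbs, Int.cast_abs] at h3
      exact h3
    rw [h2, Real.log_mul, Real.log_pow]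
    · exact_mod_cast hdiff0
    · refine pow_ne_zero _ ?_
      rw [abs_ne_zero]
      exact_mod_cast NumberField.discr_ne_zero k
  have s6 : ∑ Q ∈ Z, (Q.ramificationIdx (𝓞 k) : ℝ) * Real.log (Ideal.absNorm Q) ≤
      ∑ Q ∈ Z, (((Q.ramificationIdx (𝓞 k) - 1 : ℕ) : ℝ) * Real.log (Ideal.absNorm Q) +
        Real.log (Ideal.absNorm Q)) := by
    refine Finset.sum_le_sum fun Q _ => ?_
    have h1 : (Q.ramificationIdx (𝓞 k) : ℝ) ≤ ((Q.ramificationIdx (𝓞 k) - 1 : ℕ) : ℝ) + 1 := by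
      exact_mod_cast (by omega :
        Q.ramificationIdx (𝓞 k) ≤ (Q.ramificationIdx (𝓞 k) - 1) + 1)
    have := hlog0 Q
    nlinarith
  rw [Finset.sum_add_distrib] at s6
  rw [mul_add, s3, s5]
  linarith

end Pool.Agent.W469.CV.REL
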